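import Pool.Agent.H94.LP4.M43
import Pool.Agent.H94.LP4.M44

/-!
# The large part decides, with points of medium multiplicity

`J` is any set of the points, `μ` bounds the multiplicities outside `J`.
-/

namespace Pool.Agent.H74.BP

open Finset Pool.Agent.H18.Fat Pool.Agent.H18.Ub Pool.Agent.H22.LU Pool.Agent.H74.CT

/-- Slow growth, or independent conditions, with points of medium multiplicity. -/
theorem max_slow (r M : ℕ) (hr : 2 ≤ r) (hM : 1 ≤ M) (k d μ : ℕ) (m : Fin k → ℕ)
    (J : Finset (Fin k)) (hJ : ∀ i, i ∉ J → m i ≤ μ) (h : ℕ → ℕ)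
    (hh : ∀ j, h j = generalDim r j fun i => if i ∈ J then m i else 0)
    (hS : len r m (univ.filter fun i => i ∉ J ∧ M < m i) = 0 ∨
      ∃ e, e + μ + 300 * r * M ^ (r + 4) ≤ d ∧
        len r m (univ.filter fun i => i ∉ J ∧ M < m i) ≤ h e)
    (hyp : 16 * M ^ 2 * (M + r - 1).choose r * ((h d - h (d - 1)) -
        (h (d - 66 * M ^ 3 * (M + r - 1).choose r) -
          h (d - 66 * M ^ 3 * (M + r - 1).choose r - 1))) ≤ h d - h (d - 1) ∨
      300 * r * M ^ (r + 4) ≤ d ∧ (h (d - 300 * r * M ^ (r + 4)) : ℤ) =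
        ((d - 300 * r * M ^ (r + 4) + r).choose r : ℤ) -
          ∑ i ∈ J, ((m i + r - 1).choose r : ℤ)) : Max r d m J := by
  classical
  obtain ⟨s, rfl⟩ : ∃ s, r = s + 2 := ⟨r - 2, by omega⟩
  rw [← med_sdiff] at hS
  set L := med M m J with hL
  have hJL : J ⊆ L := med_sub M m J
  have hLM : ∀ i, i ∉ L → m i ≤ M := fun i hi => med_le hi
  have hμ : ∀ i ∈ L \ J, m i ≤ μ := fun i hi => hJ i (mem_sdiff.1 hi).2
  -- the case without medium points
  by_cases h0 : L \ J = ∅
  · have hLJ : L = J := subset_antisymm (sdiff_eq_empty_iff_subset.1 h0) hJL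
    rw [hLJ] at hLM
    unfold Max
    rw [len_cast]
    rcases hyp with hyp | ⟨hD, hyp⟩
    · have h1 := dim_of_slow (s + 2) hr M hM k d m J hLM h hh hyp
      rw [hh] at h1
      exact h1
    · rw [hh] at hyp
      exact dim_of_indep (s + 2) M hr hM k d m J hLM hD hyp
  · have hpos : len (s + 2) m (L \ J) ≠ 0 := by
      obtain ⟨i, hi⟩ := nonempty_iff_ne_empty.2 h0
      have h1 : M < m i := by
        rw [hL, med_sdiff, mem_filter] at hi
        exact hi.2.2
      have h2 : (m i + (s + 2) - 1).choose (s + 2) ≤ len (s + 2) m (L \ J) :=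
        single_le_sum (f := fun i => (m i + (s + 2) - 1).choose (s + 2))
          (fun _ _ => Nat.zero_le _) hi
      have h3 : 0 < (m i + (s + 2) - 1).choose (s + 2) := Nat.choose_pos (by omega)
      omega
    obtain ⟨e, he, hS⟩ := hS.resolve_left hpos
    have hCD : 66 * M ^ 3 * (M + (s + 2) - 1).choose (s + 2) ≤
        300 * (s + 2) * M ^ (s + 2 + 4) := by
      have h1 := Pool.Agent.H74.CT.choose_le_pow M hM (s + 2)
      calc 66 * M ^ 3 * (M + (s + 2) - 1).choose (s + 2) ≤ 66 * M ^ 3 * M ^ (s + 2) :=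
            Nat.mul_le_mul_left _ h1
        _ = 66 * M ^ (s + 2 + 3) := by ring
        _ ≤ 300 * (s + 2) * M ^ (s + 2 + 4) := by
            refine Nat.mul_le_mul (by omega) (Nat.pow_le_pow_right hM (by omega))
    refine max_of_max s k d e μ m J L hJL hμ (by omega) (by rw [← hh]; exact hS) ?_
    unfold Max
    rw [len_cast]
    rcases hyp with hyp | ⟨hD, hyp⟩
    · refine dim_of_slow (s + 2) hr M hM k d m L hLM
        (fun j => generalDim (s + 2) j fun i => if i ∈ L then m i else 0) (fun _ => rfl) ?_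
      exact slow_transfer s k d _ _ e μ m J L hJL hμ (by omega) h _ hh (fun _ => rfl) hS hyp
    · refine dim_of_indep (s + 2) M hr hM k d m L hLM hD ?_
      have h1 := elem_below s (d - 300 * (s + 2) * M ^ (s + 2 + 4)) e μ m J (L \ J)
        disjoint_sdiff hμ (by omega) (by rw [← hh]; exact hS)
      rw [union_sdiff_of_subset hJL, ← hh] at h1
      have h2 : ∑ i ∈ L, ((m i + (s + 2) - 1).choose (s + 2) : ℤ) =
          ∑ i ∈ J, ((m i + (s + 2) - 1).choose (s + 2) : ℤ) +
            ((∑ i ∈ L \ J, (m i + (s + 2) - 1).choose (s + 2) : ℕ) : ℤ) := by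
        push_cast
        exact ((add_comm _ _).trans (sum_sdiff hJL)).symm
      rw [h2]
      have h3 : ((generalDim (s + 2) (d - 300 * (s + 2) * M ^ (s + 2 + 4))
          fun i => if i ∈ L then m i else 0 : ℕ) : ℤ) +
          ((∑ i ∈ L \ J, (m i + (s + 2) - 1).choose (s + 2) : ℕ) : ℤ) =
          (h (d - 300 * (s + 2) * M ^ (s + 2 + 4)) : ℤ) := by exact_mod_cast h1
      linarith

/-- Away from the boundary of the effective cone only few points matter. -/
theorem max_big (r M : ℕ) (hr : 2 ≤ r) (hM : 1 ≤ M) (ε : ℝ) (hε : 0 < ε) : ∃ d₀ : ℕ,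
    ∀ (k d : ℕ) (m : Fin k → ℕ) (J : Finset (Fin k)), d₀ ≤ d →
      (∀ i, i ∉ J → (m i : ℝ) ≤ ε / 2 * d) →
      (∃ j : ℕ, (j : ℝ) ≤ (1 - ε) * d ∧
        0 < generalDim r j fun i => if i ∈ med M m J then m i else 0) →
      Max r d m J ∧ {i | ε / 2 * d < (m i : ℝ)}.ncard ≤ ⌈2 / ε⌉₊ ^ r := by
  classical
  obtain ⟨s, rfl⟩ : ∃ s, r = s + 2 := ⟨r - 2, by omega⟩
  have hB : 1 ≤ (M + (s + 2) - 1).choose (s + 2) := Nat.choose_pos (by omega)
  have hE1 : 1 ≤ 16 * M ^ 2 * (M + (s + 2) - 1).choose (s + 2) :=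
    Nat.one_le_iff_ne_zero.2 (by positivity)
  obtain ⟨T, hT⟩ := exists_nat_gt (1 / ε)
  have hT0 : (0 : ℝ) < T := lt_trans (by positivity) hT
  have hT1 : 1 ≤ T := by exact_mod_cast hT0
  have hTε : 1 < ε * T := by
    rw [div_lt_iff₀ hε] at hT
    linarith
  obtain ⟨d₀, hd₀⟩ := big_all (s + 2) hr (66 * M ^ 3 * (M + (s + 2) - 1).choose (s + 2))
    (16 * M ^ 2 * (M + (s + 2) - 1).choose (s + 2)) T hE1 hT1
  refine ⟨d₀ + 2 * T * M + 1, fun k d m J hd hJ he => ?_⟩
  obtain ⟨j, hj1, hj2⟩ := he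
  have hd0 : (0 : ℝ) < d := by
    have : 0 < d := by omega
    exact_mod_cast this
  set L := med M m J with hL
  have hJL : J ⊆ L := med_sub M m J
  have hLM : ∀ i, i ∉ L → m i ≤ M := fun i hi => med_le hi
  have hjd : j < d := by
    have h1 : (j : ℝ) < d := by nlinarith
    exact_mod_cast h1
  constructor
  · have hTe : T * j + d ≤ T * d := by
      have h4 : (T : ℝ) * j + d ≤ T * d := by
        have h5 : (T : ℝ) * j ≤ T * ((1 - ε) * d) := mul_le_mul_of_nonneg_left hj1 hT0.le
        have h6 : (1 : ℝ) * d ≤ ε * T * d := mul_le_mul_of_nonneg_right hTε.le (by positivity)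
        nlinarith
      exact_mod_cast h4
    have hslow := hd₀ d (by omega) k m L
      (fun j => generalDim (s + 2) j fun i => if i ∈ L then m i else 0) (fun _ => rfl)
      ⟨j, hTe, hj2⟩
    have hmaxL : Max (s + 2) d m L := by
      unfold Max
      rw [len_cast]
      exact dim_of_slow (s + 2) hr M hM k d m L hLM
        (fun j => generalDim (s + 2) j fun i => if i ∈ L then m i else 0) (fun _ => rfl) hslow
    set μ := ⌊ε / 2 * d⌋₊ with hμ
    have hμ1 : (μ : ℝ) ≤ ε / 2 * d := Nat.floor_le (by positivity)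
    have hμJ : ∀ i ∈ L \ J, m i ≤ μ := by
      intro i hi
      exact Nat.le_floor (hJ i (mem_sdiff.1 hi).2)
    have habove := elem_above s j (j + μ) μ m J (L \ J) disjoint_sdiff hμJ (by omega) (by
      rw [union_sdiff_of_subset hJL]
      exact hj2)
    refine max_of_max s k d (j + μ) μ m J L hJL hμJ ?_ ?_ hmaxL
    · have h1 : ((j + μ + μ : ℕ) : ℝ) ≤ ((d + 1 : ℕ) : ℝ) := by
        push_cast
        nlinarith
      exact_mod_cast h1
    · rw [← habove]
      exact Nat.le_add_left _ _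
  · -- the number of the points with large multiplicities
    set I := univ.filter fun i : Fin k => ε / 2 * d < (m i : ℝ) with hI
    have h1 : {i : Fin k | ε / 2 * d < (m i : ℝ)} = (I : Set (Fin k)) := by
      ext i
      rw [hI, mem_coe, mem_filter]
      exact ⟨fun h => ⟨mem_univ i, h⟩, fun h => h.2⟩
    rw [h1, Set.ncard_coe_finset]
    have hc : (2 / ε : ℝ) ≤ ⌈2 / ε⌉₊ := Nat.le_ceil _
    have hc0 : (0 : ℝ) < ⌈2 / ε⌉₊ := lt_of_lt_of_le (by positivity) hc
    refine (few_big (s + 2) ⌈2 / ε⌉₊ (by omega) (by exact_mod_cast hc0) k j m I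
      (fun i hi => ?_) ?_).le
    · have h2 : ε / 2 * d < (m i : ℝ) := (mem_filter.1 hi).2
      have h3 : (d : ℝ) < ⌈2 / ε⌉₊ * m i := by
        have h4 : (d : ℝ) = 2 / ε * (ε / 2 * d) := by field_simp
        have h5 : 2 / ε * (ε / 2 * d) < 2 / ε * m i :=
          mul_lt_mul_of_pos_left h2 (by positivity)
        have h6 : 2 / ε * (m i : ℝ) ≤ ⌈2 / ε⌉₊ * m i :=
          mul_le_mul_of_nonneg_right hc (Nat.cast_nonneg _)
        linarith
      have h4 : d < ⌈2 / ε⌉₊ * m i := by exact_mod_cast h3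
      omega
    · refine le_trans (Nat.one_le_iff_ne_zero.2 hj2.ne') (generalDim_anti fun i => ?_)
      by_cases hi : i ∈ I
      · have h2 : ε / 2 * d < (m i : ℝ) := (mem_filter.1 hi).2
        have h3 : (M : ℝ) < m i := by
          have h4 : ((2 * T * M : ℕ) : ℝ) < d := by
            have : 2 * T * M < d := by omega
            exact_mod_cast this
          push_cast at h4
          have h5 : (M : ℝ) ≤ ε * T * M := by
            have : (0 : ℝ) ≤ M := Nat.cast_nonneg M
            nlinarith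
          have h6 : ε / 2 * (2 * T * M) < ε / 2 * d := mul_lt_mul_of_pos_left h4 (by positivity)
          nlinarith
        have h4 : i ∈ L := by
          rw [hL]
          unfold med
          exact mem_union_right _ (mem_filter.2 ⟨mem_univ i, by exact_mod_cast h3⟩)
        rw [if_pos hi, if_pos h4]
      · rw [if_neg hi]
        exact Nat.zero_le _

end Pool.Agent.H74.BP
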